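import Mathlib
import Pool.Agent.Lib.MP_b8bcd1_lc.Defs
import Pool.Agent.Lib.MP_b8bcd1_lc.Direct

/-!
Strengthened parity is properly stronger than parity for directly acceptable formulae:
`¬(¬((p ∨ b) → b) ∧ (¬((q ∨ d) → d) ∧ ((p → (q → z)) ∧ (¬b → (¬d → ¬z)))))`
has a truth-tree with parity, but no truth-tree with strengthened parity.
-/

namespace Pool.Agent.Results.MP_b8bcd1_lc.DirectNe

open Pool.Agent.Lib.MP_b8bcd1_lc

/-- There is a directly acceptable formula which has no truth-tree with strengthened parity. -/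
theorem result : ∃ φ : Fm, φ ∈ DA ∧ φ ∉ DAs :=
  ⟨_, directly_acceptable_ne⟩

end Pool.Agent.Results.MP_b8bcd1_lc.DirectNe
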