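import Mathlib
import Pool.Agent.Lib.MP_b8bcd1_lc.Defs
import Pool.Agent.Lib.MP_b8bcd1_lc.Recursive

/-!
Strengthened parity is properly stronger than parity for acceptable formulae (trees with the
recursive rule). With the premises
`¬(aᵢ → ¬bᵢ)` for `i = 1, 2, 3`,
`aᵢ → (aⱼ → (pᵢⱼ ∨ (bᵢ → ¬bⱼ)))` for `i < j`,
`p₁₂ → (p₁₃ → (p₂₃ → (b₁ → (b₂ → ¬b₃))))`,
the negation of their conjunction is directly acceptable, but it is not acceptable in the sense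
of strengthened parity.
-/

namespace Pool.Agent.Results.MP_b8bcd1_lc.RecursiveNe

open Pool.Agent.Lib

/-- There is a formula which is directly acceptable and acceptable, but neither directly
acceptable nor acceptable in the sense of strengthened parity. So the two sets of acceptable
formulae are different, and so are the two sets of directly acceptable formulae. -/
theorem result :
    (∃ φ : MP_b8bcd1_lc.Fm, φ ∈ MP_b8bcd1_lc.DA ∧ φ ∈ MP_b8bcd1_lc.Acc ∧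
      φ ∉ MP_b8bcd1_lc.DAs ∧ φ ∉ MP_b8bcd1_lc.Accs) ∧
    MP_b8bcd1_lc.Accs ≠ MP_b8bcd1_lc.Acc ∧ MP_b8bcd1_lc.DAs ≠ MP_b8bcd1_lc.DA :=
  ⟨⟨_, MP_b8bcd1_lc.Rec.mem_DA, MP_b8bcd1_lc.Rec.mem_Acc, MP_b8bcd1_lc.Rec.not_mem_DAs,
    MP_b8bcd1_lc.Rec.not_mem_Accs⟩,
    fun h => MP_b8bcd1_lc.Rec.not_mem_Accs (h ▸ MP_b8bcd1_lc.Rec.mem_Acc),
    fun h => MP_b8bcd1_lc.Rec.not_mem_DAs (h ▸ MP_b8bcd1_lc.Rec.mem_DA)⟩

end Pool.Agent.Results.MP_b8bcd1_lc.RecursiveNe
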